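import Mathlib
import Pool.Agent.X155.RepulsionKKT

/-!
# The inverse repulsion matrix maps the ones vector to a nonnegative vector
-/

set_option autoImplicit false

open Matrix

namespace Pool.Agent.Results.MP_56bea1_an.NonnegativeWeights

/-- The repulsion matrix `A i j = 1 / (r + |z i - z j|)` of points of the Euclidean plane. -/
noncomputable def repulsion (r : ℝ) {n : ℕ} (z : Fin n → EuclideanSpace ℝ (Fin 2)) :
    Matrix (Fin n) (Fin n) ℝ :=
  Matrix.of fun i j => 1 / (r + dist (z i) (z j))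

/-- For every `2r`-separated configuration in the plane the system `A x = 1` has a nonnegative
solution, and `A⁻¹ 1 ≥ 0`. -/
theorem result (r : ℝ) (hr : 0 < r) (n : ℕ) (z : Fin n → EuclideanSpace ℝ (Fin 2))
    (hz : ∀ i j, i ≠ j → 2 * r ≤ dist (z i) (z j)) :
    (∃ x : Fin n → ℝ, (∀ i, 0 ≤ x i) ∧ repulsion r z *ᵥ x = 1) ∧
      ∀ i, 0 ≤ ((repulsion r z)⁻¹ *ᵥ 1) i := by
  have hex : ∃ x : Fin n → ℝ, (∀ i, 0 ≤ x i) ∧ repulsion r z *ᵥ x = 1 := by
    set φ := Complex.orthonormalBasisOneI.repr.symm with hφ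
    set z' : Fin n → ℂ := fun i => ((1 / r : ℝ) : ℂ) * φ (z i) with hz'
    have hdist : ∀ i j, ‖z' i - z' j‖ = dist (z i) (z j) / r := by
      intro i j
      rw [hz']
      simp only
      rw [← mul_sub, norm_mul, Complex.norm_real, Real.norm_of_nonneg (by positivity),
        ← dist_eq_norm, LinearIsometryEquiv.dist_map]
      field_simp
    obtain ⟨x, hx0, hx1⟩ := Pool.Agent.X155.Repulsion.exists_nonneg_solution z' (fun i j hij => by
      rw [hdist, le_div_iff₀ hr]; exact hz i j hij)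
    refine ⟨fun i => r * x i, fun i => mul_nonneg hr.le (hx0 i), ?_⟩
    funext i
    rw [Pi.one_apply, ← hx1 i]
    show ∑ j, 1 / (r + dist (z i) (z j)) * (r * x j) = _
    refine Finset.sum_congr rfl fun j _ => ?_
    rw [hdist]
    have h0 : 0 ≤ dist (z i) (z j) := dist_nonneg
    have h1 : r + dist (z i) (z j) ≠ 0 := by positivity
    have h2 : 1 + dist (z i) (z j) / r ≠ 0 := by positivity
    field_simp
  refine ⟨hex, ?_⟩
  obtain ⟨x, hx0, hx1⟩ := hex
  intro i
  by_cases hdet : IsUnit (repulsion r z).det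
  · have : (repulsion r z)⁻¹ *ᵥ 1 = x := by
      rw [← hx1, Matrix.mulVec_mulVec, Matrix.nonsing_inv_mul _ hdet, Matrix.one_mulVec]
    rw [this]
    exact hx0 i
  · rw [Matrix.nonsing_inv_apply_not_isUnit _ hdet, Matrix.zero_mulVec]
    exact le_rfl

end Pool.Agent.Results.MP_56bea1_an.NonnegativeWeights
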